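import Pool.Agent.H636R2.SM.ALLQ
import Pool.Agent.H636R2.SM.WLARGE

set_option autoImplicit false

namespace Pool.Agent.Results.MP_cd65c1_an.Complete

open MeasureTheory
open scoped ENNReal BigOperators

/-- Normalised Lebesgue measure on the torus `[0,2π)^d`. -/
noncomputable def TP (d : ℕ) : Measure (Fin d → ℝ) :=
  Measure.pi (fun _ : Fin d => ENNReal.ofReal (2 * Real.pi)⁻¹ •
    volume.restrict (Set.Ico 0 (2 * Real.pi)))

/-- The kernel `1 + 2 ∑_{k ≥ 1} k^(-r) cos(k x - r π/2)` in one variable; the sum of the series is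
the limit of its partial sums. -/
noncomputable def F1 (r x : ℝ) : ℝ :=
  Filter.limUnder Filter.atTop (fun N : ℕ =>
    1 + 2 * ∑ k ∈ Finset.range N, ((k:ℝ)+1)^(-r) * Real.cos (((k:ℝ)+1) * x - r * Real.pi / 2))

/-- The kernel in `d` variables. -/
noncomputable def Fr {d : ℕ} (r : ℝ) (x : Fin d → ℝ) : ℝ := ∏ j, F1 r (x j)

/-- The class `W^r_p` of the functions `F_r * φ`, `‖φ‖_p ≤ 1`, with values in `𝕜` (the real or the
complex numbers). -/
def W (𝕜 : Type) [RCLike 𝕜] (d : ℕ) (r : ℝ) (p : ℝ≥0∞) : Set ((Fin d → ℝ) → 𝕜) :=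
  {f | ∃ φ : (Fin d → ℝ) → 𝕜, MemLp φ p (TP d) ∧ eLpNorm φ p (TP d) ≤ 1 ∧
    f = fun x => ∫ y, Fr r (x - y) • φ y ∂(TP d)}

/-- The entropy number `ε_n(F, L_q)`: infimum of the `ε > 0` such that `F` is covered by `2^n` balls
of radius `ε` of `L_q`. -/
noncomputable def ent {𝕜 : Type} [RCLike 𝕜] {d : ℕ} (q : ℝ≥0∞) (n : ℕ)
    (F : Set ((Fin d → ℝ) → 𝕜)) : ℝ≥0∞ :=
  sInf {ε | 0 < ε ∧ ∃ y : Fin (2^n) → ((Fin d → ℝ) → 𝕜), (∀ j, MemLp (y j) q (TP d)) ∧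
    ∀ f ∈ F, ∃ j, eLpNorm (fun x => f x - y j x) q (TP d) ≤ ε}

/-- `e n ≍ R n`, `n ≥ 2`. -/
def SameOrder (e : ℕ → ℝ≥0∞) (R : ℕ → ℝ) : Prop :=
  ∃ c C : ℝ, 0 < c ∧ 0 < C ∧ ∀ n : ℕ, 2 ≤ n →
    ENNReal.ofReal (c * R n) ≤ e n ∧ e n ≤ ENNReal.ofReal (C * R n)

/-- The order in all cases but `p = 1`, `q = ∞`. -/
noncomputable def ord (d : ℕ) (r : ℝ) (n : ℕ) : ℝ :=
  if r < 1/2 then (n:ℝ)^(-r) * (Real.log n)^(((d:ℝ)-1) * (1 - r) + r)
  else if r = 1/2 then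
    (n:ℝ)^(-(1/2:ℝ)) * (Real.log n)^((d:ℝ)/2) * (Real.log (Real.log n + 3))^(1/2:ℝ)
  else (n:ℝ)^(-r) * (Real.log n)^(((d:ℝ)-1) * r + 1/2)

/-- The order for `p = 1`, `q = ∞`. -/
noncomputable def ord1 (d : ℕ) (r : ℝ) (n : ℕ) : ℝ :=
  (n:ℝ)^(-r) * (Real.log n)^(((d:ℝ)-1) * r + 1)

theorem ent_eq {𝕜 : Type} [RCLike 𝕜] {d : ℕ} (q : ℝ≥0∞) (n : ℕ) (F : Set ((Fin d → ℝ) → 𝕜)) :
    ent q n F = HypVol.entNum q n F := by
  unfold ent HypVol.entNum
  rw [sInf_eq_iInf]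
  rfl

theorem W_eq (𝕜 : Type) [RCLike 𝕜] (d : ℕ) (r : ℝ) (p : ℝ≥0∞) :
    (W 𝕜 d r p) = HypVol.ML 𝕜 d r p (fun _ => r) := rfl

theorem same_of {e : ℕ → ℝ≥0∞} {R : ℕ → ℝ} (h : SmSmW.Same e R) : SameOrder e R := by
  obtain ⟨⟨c, hc, hl⟩, ⟨C, hC, hu⟩⟩ := h
  exact ⟨c, C, hc, hC, fun n hn => ⟨hl n hn, hu n hn⟩⟩

/-- Orders of the entropy numbers of `W^r_p` in `L_∞` (`1 ≤ p ≤ ∞`, `r > 1/p`) and of `W^r_1` in `L_q`
(`1 ≤ q < ∞`, `r > 1 - 1/q`), `d ≥ 3`. -/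
theorem result (𝕜 : Type) [RCLike 𝕜] (d : ℕ) (hd : 3 ≤ d) (r : ℝ) :
    (∀ p : ℝ≥0∞, 1 < p → 1/p < ENNReal.ofReal r →
      SameOrder (fun n => ent ⊤ n (W 𝕜 d r p)) (ord d r)) ∧
    (∀ q : ℝ≥0∞, 1 ≤ q → q ≠ ⊤ → 1 < ENNReal.ofReal r + 1/q →
      SameOrder (fun n => ent q n (W 𝕜 d r 1)) (ord d r)) ∧
    (1 < r → SameOrder (fun n => ent ⊤ n (W 𝕜 d r 1)) (ord1 d r)) := by
  have h12 : ENNReal.ofReal (1/2) = 1/2 := by
    rw [ENNReal.ofReal_div_of_pos (by norm_num)]; simp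
  simp only [ent_eq, W_eq]
  refine ⟨fun p hp hr => ?_, fun q hq hq' hr => ?_, fun hr => ?_⟩
  · have hr0 : 0 < r := by
      by_contra h
      rw [ENNReal.ofReal_of_nonpos (not_lt.1 h)] at hr
      exact absurd hr (by simp)
    have hp2 : r ≤ 1/2 → 2 < p := by
      intro h
      have h1 : ENNReal.ofReal r ≤ 1/2 := by
        rw [← h12]
        exact ENNReal.ofReal_le_ofReal h
      have h2 := lt_of_lt_of_le hr h1
      rw [one_div, one_div, ENNReal.inv_lt_inv] at h2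
      exact h2
    rcases lt_trichotomy r (1/2) with h | h | h
    · have e1 : ord d r = SmSm.psiA d r := by
        funext n; simp only [ord, if_pos h, SmSm.psiA]
      rw [e1]
      exact (SmSm.all_finalw 𝕜 d hd (fun _ => r) p (hp2 h.le)).1 r hr hr0 h
    · subst h
      have e1 : ord d (1/2) = SmSm.psiB d := by
        funext n; simp only [ord, if_neg (lt_irrefl (1/2:ℝ)), if_true, SmSm.psiB]
      rw [e1]
      exact (SmSm.all_finalw 𝕜 d hd (fun _ => 1/2) p (hp2 le_rfl)).2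
    · have hn : ¬ r < 1/2 := not_lt.2 h.le
      have hne : ¬ r = 1/2 := ne_of_gt h
      have e1 : ord d r = HypVol.Rk d r := by
        funext n; simp only [ord, if_neg hn, if_neg hne, HypVol.Rk]
      rw [e1]
      have hpr : (p⁻¹).toReal < r := by
        rw [one_div] at hr
        exact ENNReal.toReal_lt_of_lt_ofReal hr
      exact same_of (SmSmW.case_pinf 𝕜 d hd (fun _ => r) r p hp (max_lt h hpr))
  · have hr0 : 0 < r := by
      by_contra h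
      rw [ENNReal.ofReal_of_nonpos (not_lt.1 h), zero_add] at hr
      have h1 : 1 / q ≤ 1 := by
        rw [one_div]; exact ENNReal.inv_le_one.2 hq
      exact absurd hr (not_lt.2 h1)
    have hqi : q⁻¹ ≤ 1 := ENNReal.inv_le_one.2 hq
    have hqt : q⁻¹ ≠ ⊤ := ne_top_of_le_ne_top ENNReal.one_ne_top hqi
    have hrq : 1 - (q⁻¹).toReal < r := by
      have h1 : (1:ℝ≥0∞) < ENNReal.ofReal r + q⁻¹ := by rwa [one_div] at hr
      have h2 := (ENNReal.toReal_lt_toReal ENNReal.one_ne_top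
        (ENNReal.add_ne_top.2 ⟨ENNReal.ofReal_ne_top, hqt⟩)).2 h1
      rw [ENNReal.toReal_add ENNReal.ofReal_ne_top hqt, ENNReal.toReal_ofReal hr0.le,
        ENNReal.toReal_one] at h2
      linarith
    have hq2 : r ≤ 1/2 → q < 2 := by
      intro h
      by_contra hcon
      have h2 : (2:ℝ≥0∞) ≤ q := not_lt.1 hcon
      have h3 : q⁻¹ ≤ 2⁻¹ := ENNReal.inv_le_inv.2 h2
      have h4 : (q⁻¹).toReal ≤ 1/2 := by
        have := ENNReal.toReal_mono (by simp) h3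
        simpa using this
      linarith
    rcases lt_trichotomy r (1/2) with h | h | h
    · have e1 : ord d r = SmSm.psiA d r := by
        funext n; simp only [ord, if_pos h, SmSm.psiA]
      rw [e1]
      exact (SmSm.q_finq 𝕜 d hd (fun _ => r) q hq (hq2 h.le)).1 r hrq hr0 h
    · subst h
      have e1 : ord d (1/2) = SmSm.psiB d := by
        funext n; simp only [ord, if_neg (lt_irrefl (1/2:ℝ)), if_true, SmSm.psiB]
      rw [e1]
      exact (SmSm.q_finq 𝕜 d hd (fun _ => 1/2) q hq (hq2 le_rfl)).2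
    · have hn : ¬ r < 1/2 := not_lt.2 h.le
      have hne : ¬ r = 1/2 := ne_of_gt h
      have e1 : ord d r = HypVol.Rk d r := by
        funext n; simp only [ord, if_neg hn, if_neg hne, HypVol.Rk]
      rw [e1]
      exact same_of (SmSmW.case_1q 𝕜 d hd (fun _ => r) r q hq hq' (max_lt h hrq))
  · have e1 : ord1 d r = HypVol.RkS d r 2 := by
      funext n
      simp only [ord1, HypVol.RkS]
      norm_num
    rw [e1]
    exact same_of ⟨SmSmW.case_1inf_lower 𝕜 d hd r hr, SmSmW.case_1inf_upper 𝕜 d hd (fun _ => r) r hr⟩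

end Pool.Agent.Results.MP_cd65c1_an.Complete
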